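import Mathlib
import Pool.Agent.TH504.VY.Defs
import Pool.Agent.Y91.Sharp.Defs

/-!
# Varieties which are independent of very general members of families
-/

namespace Pool.Agent.Y91.PS

open Matrix Pool.Agent.TH131.GHC Pool.Agent.Y91.Sharp

/-- The variety is of CM type: the Hodge operator of its cohomology commutes with all its conjugates
under the automorphisms of the complex numbers (they generate the Lie algebra of the
Mumford-Tate group, up to the scalars of the weights). -/
def IsCMType {v : ℕ} (V : Coh v) : Prop :=
  ∀ σ : ℂ ≃+* ℂ, V.z * V.z.map σ = V.z.map σ * V.z

/-- The Hodge operator of the cohomology of the variety has entries in the field `K` (for instance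
since all periods of the variety are in `K`). -/
def HasPeriodsIn (K : Subfield ℂ) {v : ℕ} (V : Coh v) : Prop := ∀ a b, V.z a b ∈ K

end Pool.Agent.Y91.PS
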