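import Mathlib
import Pool.Agent.TH504.VY.Main
import Pool.Agent.TH504.CB.Indep
import Pool.Agent.Y91.Sharp.Good

/-!
# Hodge classes on the product of abelian varieties and a variety with independent Hodge structures
-/

set_option linter.unusedSectionVars false

namespace Pool.Agent.Y91.PS

open Matrix Equiv Module Pool.Agent.H204R3.SP Pool.Agent.H204R3.CM Pool.Agent.H194R3.CM
  Pool.Agent.W437.HC Pool.Agent.W437.HD Pool.Agent.W437.HP Pool.Agent.W437.HR
  Pool.Agent.W548.Odd Pool.Agent.TH125.Small Pool.Agent.TH131.GHC Pool.Agent.TH504.VL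
  Pool.Agent.W546.GHC Pool.Agent.TH504.VY Pool.Agent.TH504.CB

noncomputable section

variable {n : ℕ} {g : Fin n → ℕ} {Z : ∀ i, Matrix (Fin (g i)) (Fin (g i)) ℂ} {v : ℕ} {V : Coh v}

/-- The Lie algebra of the product is symplectic on all pieces, and the product is independent of
the variety. -/
structure IsFree (Z : ∀ i, Matrix (Fin (g i)) (Fin (g i)) ℂ) (V : Coh v) : Prop where
  symm : ∀ i, (Z i)ᵀ = Z i
  pos : ∀ i, (imM (Z i)).PosDef
  pcs : ∀ i, HasPcs (DZ (Z i))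
  ind : Indep (DZ (bigD ℂ Z)) V.z

theorem IsFree.opD_zero (h : IsFree Z V) {F : HAZ (∀ i, Fin (g i) ⊕ Fin (g i) → ℚ) v}
    (hF : IsHodgeOnProduct (perProd Z) V F) (k : ℕ) :
    opD (Fin k) (Fin v) (DZ (bigD ℂ Z)) (cstX (cfP g (F k))) = 0 := by
  have h0 := total_zero h.pos V hF k
  have h1 : Stable (Submodule.span ℚ {cfP g (F k)}) (opD (Fin k) (Fin v) (DZ (bigD ℂ Z)) +
      opW (Fin k) (Fin (NB g) ⊕ Fin (NB g)) V.z) := by
    intro z hz
    obtain ⟨r, rfl⟩ := mem_cxX_span hz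
    rw [map_smul, LinearMap.add_apply, h0, smul_zero]
    exact Submodule.zero_mem _
  refine opD_eq_zero (DZ_sq ((imM_bigD_posDef _ h.pos).isUnit.map Matrix.detMonoidHom))
    (DZ_conj _) (h.ind k _ h1 _ (cstX_mem (Submodule.mem_span_singleton_self _)))

theorem IsFree.opW_zero (h : IsFree Z V) {F : HAZ (∀ i, Fin (g i) ⊕ Fin (g i) → ℚ) v}
    (hF : IsHodgeOnProduct (perProd Z) V F) (k : ℕ) :
    opW (Fin k) (Fin (NB g) ⊕ Fin (NB g)) V.z (cstX (cfP g (F k))) = 0 := by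
  have h1 := total_zero h.pos V hF k
  rwa [h.opD_zero hF, zero_add] at h1

theorem IsFree.cmp_isH (h : IsFree Z V) {F : HAZ (∀ i, Fin (g i) ⊕ Fin (g i) → ℚ) v}
    (hF : IsHodgeOnProduct (perProd Z) V F) (k : ℕ) (b : Fin v) :
    IsH (DZ (bigD ℂ Z)) (cfE (EE g) (cmp b (F k))) := by
  have h1 := congrArg (sl b) (h.opD_zero hF k)
  rw [sl_opD, map_zero] at h1
  exact h1

theorem expandP {κ : Type} [Fintype κ] [DecidableEq κ] (hpos : ∀ i, (imM (Z i)).PosDef)
    (f : (∀ i, Fin (g i) ⊕ Fin (g i) → ℚ) [⋀^κ]→ₗ[ℚ] ℚ) :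
    (fun w => f w) = (frame1 Z hpos).pf (fun _ : κ => ()) (cfE (EE g) f) := by
  funext w
  rw [(frame1 Z hpos).expand f w, Fintype.sum_unique]
  rfl

theorem IsFree.value_mem (h : IsFree Z V) {F : HAZ (∀ i, Fin (g i) ⊕ Fin (g i) → ℚ) v}
    (hF : IsHodgeOnProduct (perProd Z) V F) (k : ℕ)
    (w : Fin k → (∀ i, Fin (g i) ⊕ Fin (g i) → ℚ)) : F k w ∈ HY V := by
  have h1 := h.opW_zero hF k
  have h2 : ∀ I : Fin k → Fin (NB g) ⊕ Fin (NB g), F k (fun l => EE g (I l)) ∈ HY V := by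
    intro I
    change V.z *ᵥ cv (F k (fun l => EE g (I l))) = 0
    funext b
    have h3 := congrFun h1 (I, b)
    rw [opW_apply] at h3
    exact h3
  have h3 : F k w = ∑ I : Fin k → Fin (NB g) ⊕ Fin (NB g), (∏ l, aP g (w l) (I l)) •
      F k (fun l => EE g (I l)) := by
    funext b
    have h4 := congrFun (expandP h.pos (cmp b (F k))) w
    have h5 : (cmp b (F k)) w = F k w b := rfl
    rw [← h5]
    refine h4.trans ?_
    rw [Frame.pf_apply, Finset.sum_apply]
    unfold evalF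
    refine Finset.sum_congr rfl fun I _ => ?_
    rw [Pi.smul_apply, smul_eq_mul, mul_comm]
    rfl
  rw [h3]
  exact Submodule.sum_mem _ fun I _ => Submodule.smul_mem _ _ (h2 I)

theorem IsFree.integral_mem (h : IsFree Z V) {F : HAZ (∀ i, Fin (g i) ⊕ Fin (g i) → ℚ) v}
    (hF : IsHodgeOnProduct (perProd Z) V F) {k j : ℕ}
    (e : Basis (Fin k ⊕ Fin j) ℚ (∀ i, Fin (g i) ⊕ Fin (g i) → ℚ))
    (β : (∀ i, Fin (g i) ⊕ Fin (g i) → ℚ) [⋀^Fin j]→ₗ[ℚ] ℚ) :
    fibreIntegral e F β ∈ HY V := by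
  unfold fibreIntegral
  refine Submodule.sum_mem _ fun σ _ => ?_
  have h1 : ∀ (z : ℤ) (x : Fin v → ℚ), x ∈ HY V → z • x ∈ HY V := fun z x hx => zsmul_mem hx z
  exact h1 _ _ (Submodule.smul_mem _ _ (h.value_mem hF k _))

/-- Forms with Hodge coordinates are combinations of products of Hodge classes of degree two. -/
theorem mem_span_point (hZ : ∀ i, (Z i)ᵀ = Z i) (hpos : ∀ i, (imM (Z i)).PosDef)
    (hp : ∀ i, HasPcs (DZ (Z i))) {k : ℕ} {f : (∀ i, Fin (g i) ⊕ Fin (g i) → ℚ) [⋀^Fin k]→ₗ[ℚ] ℚ}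
    (hf : IsH (DZ (bigD ℂ Z)) (cfE (EE g) f)) : f ∈ divisorSpan (perProd Z) k := by
  classical
  have hpol : PolH (DZ (bigD ℂ Z)) := polOf (bigD_symm hZ) (imM_bigD_posDef _ hpos)
  by_cases hk : Odd k
  · have h1 : cfE (EE g) f = 0 := isH_odd hpol.dd hf (by rwa [Fintype.card_fin])
    rw [cfE_inj f h1]
    exact Submodule.zero_mem _
  obtain ⟨r, hr⟩ := Nat.not_odd_iff_even.1 hk
  have hIJ : cfE (EE g) f ∈ IJ (DZ (bigD ℂ Z)) r (Fin k) :=
    le_IJ hpol (coreP_prod _ hZ hpos hp) (fun _ c hc => mem_MS_prod _ hZ hpos hp c hc) r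
      (Fin k) 0 _ (HL_span hf) (by rw [Fintype.card_fin]; omega)
      (Submodule.mem_span_singleton_self _)
  have h2 := (frame1 Z hpos).pf_mem (D := DZ (bigD ℂ Z)) rfl
    (JR_sq ((imM_bigD_posDef _ hpos).isUnit.map Matrix.detMonoidHom)) r (Fin k) (fun _ => ()) _ hIJ
  have h3 := alt_SJ f (by rw [expandP hpos f]; exact h2)
  refine (Submodule.span_le.2 ?_) h3
  rintro F ⟨k', e, B, η, hB, hF⟩
  have hk' : k' = 0 := by
    have h4 := Fintype.card_congr e
    simp only [Fintype.card_sum, Fintype.card_prod, Fintype.card_fin] at h4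
    omega
  subst hk'
  have h5 : F = (η (fun r => r.elim0)) • ((η (fun r => r.elim0))⁻¹ • F) ∨ F = 0 := by
    by_cases h0 : η (fun r => r.elim0) = 0
    · right
      ext w
      rw [hF w]
      refine Finset.sum_eq_zero fun σ _ => ?_
      have h6 : η (fun r => w (σ (e (Sum.inr r)))) = η (fun r => r.elim0) :=
        congrArg η (funext fun r => r.elim0)
      rw [h6, h0, mul_zero, mul_zero]
    · left
      rw [smul_smul, mul_inv_cancel₀ h0, one_smul]
  rcases h5 with h5 | h5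
  · by_cases h0 : η (fun r => r.elim0) = 0
    · rw [h5, h0, zero_smul]
      exact Submodule.zero_mem _
    rw [h5]
    refine Submodule.smul_mem _ _ (Submodule.subset_span ?_)
    refine ⟨r, (Equiv.sumEmpty (Fin r × Fin 2) (Fin 0)).symm.trans e, B, fun l => hB l,
      fun w => ?_⟩
    rw [AlternatingMap.smul_apply, hF w, smul_eq_mul, Finset.mul_sum]
    refine Finset.sum_congr rfl fun σ _ => ?_
    have h6 : η (fun r => w (σ (e (Sum.inr r)))) = η (fun r => r.elim0) :=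
      congrArg η (funext fun r => r.elim0)
    rw [h6]
    have h7 : ∀ P : ℚ, (η (fun r => r.elim0))⁻¹ * (((Perm.sign σ : ℤ) : ℚ) *
        (P * η (fun r => r.elim0))) = ((Perm.sign σ : ℤ) : ℚ) * P := by
      intro P
      field_simp
    exact h7 _
  · rw [h5]
    exact Submodule.zero_mem _

/-- **The reproducing property.** -/
theorem IsFree.mem_of_integrals (h : IsFree Z V) {F : HAZ (∀ i, Fin (g i) ⊕ Fin (g i) → ℚ) v}
    (hF : IsHodgeOnProduct (perProd Z) V F)
    {P : Submodule ℚ (HAZ (∀ i, Fin (g i) ⊕ Fin (g i) → ℚ) v)}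
    (hP : ∀ (k j : ℕ) (e : Basis (Fin k ⊕ Fin j) ℚ (∀ i, Fin (g i) ⊕ Fin (g i) → ℚ)),
      ∀ f ∈ divisorSpan (perProd Z) k, ∀ β ∈ divisorSpan (perProd Z) j,
        cross f (fibreIntegral e F β) ∈ P) : F ∈ P := by
  classical
  obtain ⟨N, hN⟩ : ∃ N, N = Fintype.card (Fin (NB g) ⊕ Fin (NB g)) := ⟨_, rfl⟩
  have hdim : finrank ℚ (∀ i, Fin (g i) ⊕ Fin (g i) → ℚ) = N := by
    rw [hN]
    exact finrank_eq_card_basis (basisP g)
  have hbig : ∀ k, N < k → F k = 0 := by
    intro k hk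
    refine AlternatingMap.ext fun w => ?_
    refine (F k).map_linearDependent w fun hw => ?_
    have h1 := hw.fintype_card_le_finrank
    rw [Fintype.card_fin, hdim] at h1
    omega
  have hsum : F = ∑ k ∈ Finset.range (N + 1),
      (Pi.single k (F k) : HAZ (∀ i, Fin (g i) ⊕ Fin (g i) → ℚ) v) := by
    funext k
    rw [Finset.sum_apply]
    by_cases hk : k ∈ Finset.range (N + 1)
    · rw [Finset.sum_eq_single k]
      · rw [Pi.single_eq_same]
      · intro l _ hl
        exact Pi.single_eq_of_ne (Ne.symm hl) _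
      · intro h0
        exact absurd hk h0
    · rw [Finset.sum_eq_zero]
      · refine hbig k ?_
        rw [Finset.mem_range] at hk
        omega
      · intro l hl
        refine Pi.single_eq_of_ne ?_ _
        rintro rfl
        exact hk hl
  rw [hsum]
  refine Submodule.sum_mem _ fun k hk => ?_
  rw [Finset.mem_range] at hk
  have hkN : k + (N - k) = Fintype.card (Fin (NB g) ⊕ Fin (NB g)) := by omega
  have hq : Fintype.card (Fin (NB g) ⊕ Fin (NB g)) = Fintype.card (Fin k ⊕ Fin (N - k)) := by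
    rw [Fintype.card_sum (α := Fin k), Fintype.card_fin, Fintype.card_fin, hkN]
  let e : Basis (Fin k ⊕ Fin (N - k)) ℚ (∀ i, Fin (g i) ⊕ Fin (g i) → ℚ) :=
    (basisP g).reindex (Fintype.equivOfCardEq hq)
  refine reproduce (X := Unit) (EE g)
    (fun _ => polOf (bigD_symm h.symm) (imM_bigD_posDef _ h.pos))
    (fun x y => rfl) (fun {κ} _ _ f hf => cfE_inj f hf)
    hkN e F (fun x _ => h.cmp_isH hF k x) fun f hf β hβ => ?_
  exact hP k _ e f (mem_span_point h.symm h.pos h.pcs (hf ())) β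
    (mem_span_point h.symm h.pos h.pcs (hβ ()))

end

end Pool.Agent.Y91.PS
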