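import Mathlib
import Pool.Agent.Y91.PS.Defs
import Pool.Agent.Y91.PS.Point
import Pool.Agent.TH125.VhcMain

/-!
# Very general members of good families are independent of countably many varieties
-/

namespace Pool.Agent.Y91.PS

open Matrix Pool.Agent.H204R3.CM Pool.Agent.H194R3.CM Pool.Agent.W437.HC Pool.Agent.W437.HD
  Pool.Agent.W437.HP Pool.Agent.TH125.Small Pool.Agent.TH131.GHC Pool.Agent.Y91.Sharp

theorem exists_free {ι : Type} [Fintype ι] {U : Set ℂ} (hU : IsOpen U) (hc : IsPreconnected U)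
    {g : ι → ℕ} (Z : ∀ i, ℂ → Matrix (Fin (g i)) (Fin (g i)) ℂ)
    (h : ∀ i, IsGoodFamily U (Z i)) (hnc : ∀ i, ∃ s ∈ U, ∃ t ∈ U, Z i s ≠ Z i t)
    (K : Subfield ℂ) (hK : (K : Set ℂ).Countable) :
    ∃ E : Set ℂ, E.Countable ∧ ∀ t ∈ U, t ∉ E → ∀ {v : ℕ} (V : Coh v),
      (IsCMType V ∨ HasPeriodsIn K V) → ∀ {m : ℕ} (c : Fin m → ι),
        IsFree (fun j => Z (c j) t) V := by
  classical
  choose E hE hEt using fun i => exists_good hU hc (h i) (hnc i) K hK
  refine ⟨⋃ i, E i, Set.countable_iUnion hE, fun t ht htE v V hV m c => ?_⟩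
  rw [Set.mem_iUnion, not_exists] at htE
  have hZ : ∀ j, (Z (c j) t).transpose = Z (c j) t := fun j => ((h (c j)).2.1 t ht).1
  have hpos : ∀ j, ((Z (c j) t).map Complex.im).PosDef := fun j => ((h (c j)).2.1 t ht).2
  have hp : ∀ j, Pool.Agent.W437.HR.HasPcs (DZ (Z (c j) t)) :=
    fun j => (hEt (c j) t ht (htE (c j))).1
  refine ⟨hZ, hpos, hp, ?_⟩
  rcases hV with hV | hV
  · exact (polOf (bigD_symm hZ) (imM_bigD_posDef (fun j => Z (c j) t) hpos)).indep_cm
      (simp_prod (fun j => Z (c j) t) hZ hpos hp) hV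
  · exact Pool.Agent.TH504.CB.indep_of_transcendental (Z := fun j => Z (c j) t) hZ hpos hp
      (fun j => (hEt (c j) t ht (htE (c j))).2.1) V K hV
      fun j => (hEt (c j) t ht (htE (c j))).2.2

end Pool.Agent.Y91.PS
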